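import Pool.Agent.Helper36.PT.Base

/-! # PT-B1: bounds -/

set_option autoImplicit false

namespace Pool.Agent.Helper36.PT

open Pool.Agent.Helper68.SP

section B1

variable {α β γ : Type} [Enc α] [Enc β] [Enc γ]

theorem Bdd.mono {g h : α → ℕ} (hg : Bdd g) (hh : ∀ a, h a ≤ g a) : Bdd h := by
  obtain ⟨d, hd⟩ := hg
  exact ⟨d, fun a => (hh a).trans (hd a)⟩

private theorem two_le_pow (n d : ℕ) : 1 ≤ (n + 2) ^ d := Nat.one_le_pow _ _ (by omega)

private theorem lt_two_pow' (n c : ℕ) : c ≤ (n + 2) ^ c :=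
  (Nat.lt_two_pow_self (n := c)).le.trans (Nat.pow_le_pow_left (by omega) c)

theorem Bdd.const (c : ℕ) : Bdd (fun _ : α => c) := ⟨c, fun a => lt_two_pow' (esz a) c⟩

theorem Bdd.size : Bdd (fun a : α => esz a) := ⟨1, fun a => by simp⟩

theorem Bdd.mul {g h : α → ℕ} (hg : Bdd g) (hh : Bdd h) : Bdd (fun a => g a * h a) := by
  obtain ⟨d, hd⟩ := hg
  obtain ⟨e, he⟩ := hh
  exact ⟨d + e, fun a => by
    rw [pow_add]
    exact Nat.mul_le_mul (hd a) (he a)⟩

theorem Bdd.add {g h : α → ℕ} (hg : Bdd g) (hh : Bdd h) : Bdd (fun a => g a + h a) := by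
  obtain ⟨d, hd⟩ := hg
  obtain ⟨e, he⟩ := hh
  refine ⟨d + e + 1, fun a => ?_⟩
  have h1 : g a ≤ (esz a + 2) ^ (d + e) :=
    (hd a).trans (Nat.pow_le_pow_right (by omega) (by omega))
  have h2 : h a ≤ (esz a + 2) ^ (d + e) :=
    (he a).trans (Nat.pow_le_pow_right (by omega) (by omega))
  have h3 : (esz a + 2) ^ (d + e) * 2 ≤ (esz a + 2) ^ (d + e) * (esz a + 2) :=
    Nat.mul_le_mul_left _ (by omega)
  show g a + h a ≤ (esz a + 2) ^ (d + e + 1)
  rw [pow_succ]
  omega

theorem Bdd.pow {g : α → ℕ} (hg : Bdd g) (k : ℕ) : Bdd (fun a => g a ^ k) := by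
  obtain ⟨d, hd⟩ := hg
  exact ⟨d * k, fun a => by
    rw [pow_mul]
    exact Nat.pow_le_pow_left (hd a) k⟩

theorem Bdd.max {g h : α → ℕ} (hg : Bdd g) (hh : Bdd h) : Bdd (fun a => max (g a) (h a)) :=
  (hg.add hh).mono fun a => by
    rcases le_total (g a) (h a) with h1 | h1
    · rw [max_eq_right h1]; omega
    · rw [max_eq_left h1]; omega

theorem PolyTime.bdd {f : α → β} (hf : PolyTime f) : Bdd (fun a => esz (f a)) := by
  obtain ⟨p, d, h⟩ := hf
  have hb : Bdd (fun a : α => 2 * esz a + (esz a + 2) ^ d) :=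
    ((Bdd.const 2).mul Bdd.size).add ⟨d, fun a => le_rfl⟩
  refine hb.mono fun a => ?_
  have h1 := (h a []).len
  simp only [List.append_nil, length_fr] at h1
  show esz (f a) ≤ 2 * esz a + (esz a + 2) ^ d
  unfold esz at h1 ⊢
  omega

/-- a polynomially bounded function of a function with values of polynomial size -/
theorem Bdd.comp {g : β → ℕ} {f : α → β} (hg : Bdd g) (hf : Bdd (fun a => esz (f a))) :
    Bdd (fun a => g (f a)) := by
  obtain ⟨d, hd⟩ := hg
  have hb : Bdd (fun a => (esz (f a) + 2) ^ d) := (hf.add (Bdd.const 2)).pow d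
  exact hb.mono fun a => hd (f a)

theorem esz_pair (a : α) (b : β) : esz (a, b) = 2 * esz a + 1 + esz b := by
  show (fr (enc a) ++ enc b).length = _
  rw [List.length_append, length_fr]
  rfl

theorem esz_nat (n : ℕ) : esz n = n := by
  show (List.replicate n true).length = n
  simp

theorem esz_bool (c : Bool) : esz c = 1 := rfl

theorem esz_nil : esz ([] : List α) = 0 := rfl

theorem esz_cons (a : α) (l : List α) : esz (a :: l) = 2 * esz a + 1 + esz l := by
  show (fr (enc a) ++ encL l).length = _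
  rw [List.length_append, length_fr]
  rfl

theorem esz_append (l l' : List α) : esz (l ++ l') = esz l + esz l' := by
  induction l with
  | nil => simp [esz_nil]
  | cons a l ih =>
    rw [List.cons_append, esz_cons, esz_cons, ih]
    omega

theorem esz_list (l : List α) : esz l = (l.map (fun a => 2 * esz a + 1)).sum := by
  induction l with
  | nil => rfl
  | cons a l ih => rw [esz_cons, ih, List.map_cons, List.sum_cons]

theorem length_le_esz (l : List α) : l.length ≤ esz l := by
  induction l with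
  | nil => simp [esz_nil]
  | cons a l ih =>
    rw [esz_cons, List.length_cons]
    omega

theorem esz_mem_le {a : α} {l : List α} (h : a ∈ l) : esz a ≤ esz l := by
  induction l with
  | nil => simp at h
  | cons b l ih =>
    rw [esz_cons]
    rcases List.mem_cons.1 h with rfl | h
    · omega
    · have := ih h
      omega

theorem esz_list_le {l : List α} {B : ℕ} (h : ∀ a ∈ l, esz a ≤ B) :
    esz l ≤ l.length * (2 * B + 1) := by
  induction l with
  | nil => simp [esz_nil]
  | cons b l ih =>
    rw [esz_cons, List.length_cons, add_mul, one_mul]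
    have h1 := h b (by simp)
    have h2 := ih fun a ha => h a (by simp [ha])
    omega

theorem Bdd.pair {f : α → β} {g : α → γ} (hf : Bdd (fun a => esz (f a)))
    (hg : Bdd (fun a => esz (g a))) : Bdd (fun a => esz (f a, g a)) :=
  ((((Bdd.const 2).mul hf).add (Bdd.const 1)).add hg).mono fun a => by rw [esz_pair]

end B1

end Pool.Agent.Helper36.PT
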